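import Pool.Agent.Helper80.DC.Main

/-!
# `μ ≥ 4 p_g + s + 2^r - 2` for iterated double covers, in every codimension `r`

Let `A(Y) = 8 p_g + K² - b₁` for a germ `Y` of a normal surface. For an isolated complete
intersection `μ = 4 p_g + s + A` (Laufer, Steenbrink), where `s` is the number of the exceptional
curves of the minimal resolution.

* For every normal germ `Y` and every double cover `X : z ^ 2 = g`, `g` with reduced zero divisor,
  `A(X) ≥ 2 A(Y)`, and `A(X) ≥ 2 A(Y) + 2` if `Y` is singular and `g` is in the square of the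
  maximal ideal.
* So the inequality `μ ≥ 4 p_g + s + 2^r - 2`, `r` the embedding codimension, passes from every
  isolated complete intersection `Y` (or smooth germ) to all its iterated double covers.
* It holds for all iterated double covers of the plane, that is for the singularities
  `z_i ^ 2 = g_i(x, y, z_1, …, z_{i-1})`, `1 ≤ i ≤ r`. In particular `μ > 4 p_g` for them. For the
  cone given by `r` general quadrics there is equality.
-/

namespace Pool.Agent.Results.MP_fc48fe_ag.IteratedDoubleCovers

open Pool.Agent.Helper80.DC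

theorem result (T : SurfaceGerms) (h : Facts T) :
    (∀ (Y : T.Germ) (g : T.Branch Y), 2 * T.A Y ≤ T.A (T.cover Y g) ∧
      (¬ T.Smooth Y → T.InSq g → 2 * T.A Y + 2 ≤ T.A (T.cover Y g))) ∧
    (∀ Y X : T.Germ, T.CI Y → 4 * T.pg Y + T.s Y + 2 ^ T.cod Y ≤ T.mu Y + 2 →
      T.Iterated Y X → 4 * T.pg X + T.s X + 2 ^ T.cod X ≤ T.mu X + 2) ∧
    (∀ U X : T.Germ, T.Smooth U → T.Iterated U X → ¬ T.Smooth X →
      4 * T.pg X + T.s X + 2 ^ T.cod X ≤ T.mu X + 2 ∧ 4 * T.pg X < T.mu X) :=
  main h

end Pool.Agent.Results.MP_fc48fe_ag.IteratedDoubleCovers
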